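import Pool.Agent.helper60.DA.SpecV

/-!
# Row dv:F2: the sum at `x = 2` modulo `p^2`
-/

set_option autoImplicit false

namespace Pool.Agent.helper60.DA

open Polynomial Finset Pool.Agent.helper60.DK

theorem F2_red_eval (p : ℕ) (V : ℤ[X]) (a : ℤ) :
    (red p V).eval (a : ZMod p) = ((V.eval a : ℤ) : ZMod p) := by
  unfold red
  simp [eval_intCast_map]

/-- the value of `S1` at 2 -/
theorem F2_S1 (p : ℕ) [Fact p.Prime] (u : ZMod (p ^ 2)) (hu : 108 * u = 1) :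
    (((S1 p).eval 2 : ℤ) : ZMod (p ^ 2)) =
      16 ^ hh p * 27 ^ hh p * ∑ k ∈ range (hh p + 1), (ak k : ZMod (p ^ 2)) * u ^ k := by
  unfold S1 Hh
  rw [eval_finsetSum, Int.cast_sum, Finset.mul_sum]
  refine Finset.sum_congr rfl fun k hk => ?_
  have hkh : k ≤ hh p := by
    rw [Finset.mem_range] at hk
    omega
  obtain ⟨j, hj⟩ := Nat.exists_eq_add_of_le hkh
  have hj' : hh p - k = j := by omega
  rw [hj', hj]
  simp only [eval_mul, eval_C, eval_pow, eval_X, eval_add, eval_one]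
  push_cast
  have h3 : (3 : ZMod (p ^ 2)) ^ (3 * j) = 27 ^ j := by
    rw [pow_mul]
    congr 1
    norm_num
  have h4 : (2 : ZMod (p ^ 2)) ^ (2 * k) = 4 ^ k := by
    rw [pow_mul]
    congr 1
    norm_num
  have h5 : (16 : ZMod (p ^ 2)) ^ k * 27 ^ k * u ^ k = 4 ^ k := by
    rw [← mul_pow, ← mul_pow]
    congr 1
    linear_combination 4 * hu
  rw [h3, h4, pow_add, pow_add]
  linear_combination (-(ak k : ZMod (p ^ 2)) * 16 ^ j * 27 ^ j) * h5

theorem F2 (hVEX : VEX_stmt) (hE2 : E2_stmt) (hSQ : SQ_stmt) (hM1 : M1_stmt) : F2_stmt := by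
  intro p _ hp hp3 u hu
  have hpr : p.Prime := Fact.out
  obtain ⟨⟨V, hV⟩, -⟩ := hVEX p (by omega)
  have hE := hE2 p hp hp3 V hV
  obtain ⟨-, h3⟩ := hSQ p (by omega)
  have hM := hM1 p (by omega)
  set T : ZMod (p ^ 2) := ∑ k ∈ range (hh p + 1), (ak k : ZMod (p ^ 2)) * u ^ k with hT
  -- evaluate at 2
  have e1 : (16 : ℤ) ^ hh p * (St p).eval 2 = (S1 p).eval 2 + (p : ℤ) * V.eval 2 := by
    have := congrArg (fun f : ℤ[X] => f.eval 2) hV
    simp only [eval_mul, eval_add, eval_C] at this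
    exact this
  have e2 : (16 : ZMod (p ^ 2)) ^ hh p * (((St p).eval 2 : ℤ) : ZMod (p ^ 2)) =
      (((S1 p).eval 2 : ℤ) : ZMod (p ^ 2)) + (p : ZMod (p ^ 2)) * ((V.eval 2 : ℤ) : ZMod (p ^ 2)) := by
    have := congrArg (Int.cast : ℤ → ZMod (p ^ 2)) e1
    push_cast at this
    exact this
  have hc2 : (((2 : ℤ) : ZMod p)) = 2 := by norm_num
  have r1 : (red p V).eval 2 = ((V.eval 2 : ℤ) : ZMod p) := by
    have := F2_red_eval p V 2
    rwa [hc2] at this
  have r2 : (Wp p).eval 2 = rd p (((S1 p).eval 2 : ℤ) : ZMod (p ^ 2)) := by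
    rw [rd_intCast, ← hM]
    have := F2_red_eval p (S1 p) 2
    rwa [hc2] at this
  have e3 : (p : ZMod (p ^ 2)) * ((V.eval 2 : ℤ) : ZMod (p ^ 2)) =
      (((S1 p).eval 2 : ℤ) : ZMod (p ^ 2)) * lp p (-(3 / 2) * Q3 p) := by
    rw [← lp_intCast, ← r1, hE, r2, mul_lp]
  rw [e3, F2_S1 p u hu, ← hT] at e2
  -- the value of `27^h`
  have h27 : (27 : ZMod (p ^ 2)) ^ hh p = qc p 3 * (1 + lp p (3 / 2 * Q3 p)) := by
    have a1 : (27 : ZMod (p ^ 2)) ^ hh p = ((3 : ZMod (p ^ 2)) ^ hh p) ^ 3 := by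
      rw [← pow_mul, mul_comm (hh p) 3, pow_mul]
      congr 1
      norm_num
    have h3ne : (3 : ZMod p) ≠ 0 := by
      intro h
      have : ((3 : ℕ) : ZMod p) = 0 := by exact_mod_cast h
      rw [ZMod.natCast_eq_zero_iff] at this
      have := Nat.le_of_dvd (by norm_num) this
      omega
    have a2 : qc p 3 ^ 2 = 1 := by
      unfold qc
      rw [← Int.cast_pow, quadraticChar_sq_one h3ne, Int.cast_one]
    have a3 : lp p (3 / 2 * Q3 p) = 3 * lp p (Q3 p / 2) := by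
      rw [mul_lp]
      congr 1
      have : rd p 3 = 3 := map_ofNat _ 3
      rw [this]
      ring
    have a4 := lp_mul_lp (p := p) (Q3 p / 2) (Q3 p / 2)
    rw [a1, h3, a3]
    linear_combination (qc p 3 * (1 + 3 * lp p (Q3 p / 2))) * a2 +
      (qc p 3 ^ 3 * (3 + lp p (Q3 p / 2))) * a4
  have h16 : IsUnit ((16 : ZMod (p ^ 2)) ^ hh p) := by
    apply IsUnit.pow
    apply isUnit_of_rd_ne_zero
    have : rd p 16 = 16 := map_ofNat _ 16
    rw [this]
    intro h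
    have h2 : ((16 : ℕ) : ZMod p) = 0 := by exact_mod_cast h
    rw [ZMod.natCast_eq_zero_iff] at h2
    have h4 : p ∣ 2 ^ 4 := by
      norm_num
      exact h2
    have := Nat.le_of_dvd (by norm_num) (hpr.dvd_of_dvd_pow h4)
    omega
  have a5 : lp p (-(3 / 2) * Q3 p) = -lp p (3 / 2 * Q3 p) := by
    rw [neg_mul, lp_neg]
  have a6 := lp_mul_lp (p := p) (3 / 2 * Q3 p) (3 / 2 * Q3 p)
  rw [a5, h27] at e2
  apply h16.mul_left_cancel
  rw [e2]
  linear_combination (-(16 : ZMod (p ^ 2)) ^ hh p * qc p 3 * T) * a6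

end Pool.Agent.helper60.DA
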