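import Pool.Agent.helper60.DA.SpecJ

/-!
# Row dj:QC: Euler criterion for the Teichmueller lift
-/

set_option autoImplicit false

namespace Pool.Agent.helper60.DA

open Polynomial Finset Pool.Agent.helper60.DK

theorem QC (hOM : OM_stmt) : QC_stmt := by
  intro p _ hp t ht
  obtain ⟨-, -, -, h4, -, h6, -⟩ := hOM p hp
  have hpr : p.Prime := Fact.out
  have hodd : p % 2 = 1 := by
    rcases hpr.eq_two_or_odd with h | h
    · omega
    · exact h
  have hh2 : hh p + hh p = p - 1 := by
    unfold hh
    omega
  have hhd : p / 2 = hh p := by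
    unfold hh
    omega
  have hw : om p t ^ hh p * om p t ^ hh p = 1 := by
    rw [← pow_add, hh2, h4 t ht]
  have hc2 : ringChar (ZMod p) ≠ 2 := by
    rw [ZMod.ringChar_zmod_n]
    omega
  have hq : qc p t * qc p t = 1 := by
    unfold qc
    rw [← Int.cast_mul, ← sq, quadraticChar_sq_one ht, Int.cast_one]
  have hr : rd p (qc p t) = t ^ hh p := by
    unfold qc
    rw [rd_intCast, quadraticChar_eq_pow_of_char_ne_two' hc2, ZMod.card, hhd]
  have hrw : rd p (om p t ^ hh p) = t ^ hh p := by
    rw [map_pow, h6]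
  have hu : IsUnit (om p t ^ hh p + qc p t) := by
    apply isUnit_of_rd_ne_zero
    rw [map_add, hrw, hr, ← two_mul]
    refine mul_ne_zero ?_ (pow_ne_zero _ ht)
    intro h2
    have : ((2 : ℕ) : ZMod p) = 0 := by exact_mod_cast h2
    rw [ZMod.natCast_eq_zero_iff] at this
    have := Nat.le_of_dvd (by norm_num) this
    omega
  have h0 : (om p t ^ hh p + qc p t) * (om p t ^ hh p - qc p t) = 0 := by
    have : (om p t ^ hh p + qc p t) * (om p t ^ hh p - qc p t) =
        om p t ^ hh p * om p t ^ hh p - qc p t * qc p t := by ring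
    rw [this, hw, hq, sub_self]
  exact sub_eq_zero.mp ((hu.mul_right_eq_zero).mp h0)

end Pool.Agent.helper60.DA
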