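import Pool.Agent.helper60.DA.SpecV

/-!
# Row dv:RT3
-/

namespace Pool.Agent.helper60.DA

open Polynomial Finset Pool.Agent.helper60.DK

theorem RT3_cancel {p : ℕ} (hp : p ≠ 0) (x y : ℤ√3) (h : (p : ℤ√3) * x = (p : ℤ√3) * y) :
    x = y := by
  have hp0 : (p : ℤ) ≠ 0 := by exact_mod_cast hp
  obtain ⟨a, b⟩ := x
  obtain ⟨c, d⟩ := y
  rw [Zsqrtd.nsmul_val, Zsqrtd.nsmul_val, Zsqrtd.ext_iff] at h
  obtain ⟨h1, h2⟩ := h
  ext
  · exact mul_left_cancel₀ hp0 h1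
  · exact mul_left_cancel₀ hp0 h2

theorem RT3_aux (p : ℕ) [hp : Fact p.Prime] (h5 : 5 ≤ p) :
    (3 * (fq p 3 : ℤ√3) - 8 * (fq p 2 : ℤ√3) - 4 * (p : ℤ√3) * (fq p 2 : ℤ√3) ^ 2
      + ph p (⟨0, 1⟩ : ℤ√3) (-2) * ((⟨0, 1⟩ : ℤ√3) ^ p + 2 ^ p)
      + ph p (⟨0, 1⟩ : ℤ√3) 2 * ((⟨0, 1⟩ : ℤ√3) ^ p - 2 ^ p)
      + (p : ℤ√3) * (ph p (⟨0, 1⟩ : ℤ√3) 2 * ph p (⟨0, 1⟩ : ℤ√3) (-2)) = 0) ∧
    (3 * (fq p 3 : ℤ√3) + 2 * ph p (⟨0, 1⟩ : ℤ√3) 1 * ((⟨0, 1⟩ : ℤ√3) ^ p + 1)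
      + (p : ℤ√3) * ph p (⟨0, 1⟩ : ℤ√3) 1 ^ 2
      = 2 * (fq p 2 : ℤ√3) * (⟨0, 1⟩ : ℤ√3) ^ p + 8 * (fq p 2 : ℤ√3)
        + 4 * (p : ℤ√3) * (fq p 2 : ℤ√3) ^ 2 + 2 ^ p * ph p (⟨0, 1⟩ : ℤ√3) 2) ∧
    ((2 : ℤ√3) ^ p = 2 + 2 * (p : ℤ√3) * (fq p 2 : ℤ√3)) := by
  have hodd : Odd p := hp.out.odd_of_ne_two (by omega)
  set s : ℤ√3 := ⟨0, 1⟩ with hs
  have hs2 : s * s = 3 := by
    rw [hs]; ext <;> simp
  have hz : (s ^ p) * (s ^ p) = 3 ^ p := by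
    rw [← mul_pow, hs2]
  have hA := ph_spec p s 2
  have hB := ph_spec p s (-2)
  have hC := ph_spec p s 1
  rw [hodd.neg_pow] at hB
  rw [one_pow] at hC
  have h2 : ¬ (p : ℤ) ∣ 2 := by
    intro h
    have := Int.le_of_dvd (by norm_num) h
    omega
  have h3 : ¬ (p : ℤ) ∣ 3 := by
    intro h
    have := Int.le_of_dvd (by norm_num) h
    omega
  have hf2 : ((2 : ℤ) ^ p) = 2 + 2 * (p * fq p 2) := by
    rw [fq_spec h2]
    obtain ⟨k, hk⟩ : ∃ k, p = k + 1 := ⟨p - 1, by omega⟩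
    rw [hk, pow_succ, Nat.add_sub_cancel]; ring
  have hf3 : ((3 : ℤ) ^ p) = 3 + 3 * (p * fq p 3) := by
    rw [fq_spec h3]
    obtain ⟨k, hk⟩ : ∃ k, p = k + 1 := ⟨p - 1, by omega⟩
    rw [hk, pow_succ, Nat.add_sub_cancel]; ring
  have hg2 : ((2 : ℤ√3) ^ p) = 2 + 2 * (p : ℤ√3) * (fq p 2 : ℤ√3) := by
    have := congrArg (fun t : ℤ => (t : ℤ√3)) hf2
    push_cast at this
    rw [this]; ring
  have hg3 : ((3 : ℤ√3) ^ p) = 3 + 3 * (p : ℤ√3) * (fq p 3 : ℤ√3) := by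
    have := congrArg (fun t : ℤ => (t : ℤ√3)) hf3
    push_cast at this
    rw [this]; ring
  have e1 : (s + 2) ^ p * (s + (-2)) ^ p = -1 := by
    rw [← mul_pow]
    have : (s + 2) * (s + (-2)) = -1 := by linear_combination hs2
    rw [this, hodd.neg_one_pow]
  have e2 : (s + 1) ^ p * (s + 1) ^ p = 2 ^ p * (s + 2) ^ p := by
    rw [← mul_pow, ← mul_pow]
    have : (s + 1) * (s + 1) = 2 * (s + 2) := by linear_combination hs2
    rw [this]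
  have hA' : (s + 2) ^ p = s ^ p + 2 ^ p + (p : ℤ√3) * ph p s 2 := by linear_combination -hA
  have hB' : (s + (-2)) ^ p = s ^ p - 2 ^ p + (p : ℤ√3) * ph p s (-2) := by
    linear_combination -hB
  have hC' : (s + 1) ^ p = s ^ p + 1 + (p : ℤ√3) * ph p s 1 := by linear_combination -hC
  rw [hA', hB'] at e1
  rw [hA', hC'] at e2
  generalize ph p s 2 = A at *
  generalize ph p s (-2) = B at *
  generalize ph p s 1 = C1 at *
  generalize s ^ p = z at *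
  generalize (fq p 2 : ℤ√3) = q2 at *
  generalize (fq p 3 : ℤ√3) = q3 at *
  refine ⟨?_, ?_, hg2⟩
  · apply RT3_cancel hp.out.ne_zero
    rw [mul_zero]
    rw [hg2] at e1 ⊢
    rw [hg3] at hz
    linear_combination e1 - hz
  · apply RT3_cancel hp.out.ne_zero
    rw [hg2] at e2 ⊢
    rw [hg3] at hz
    linear_combination e2 - hz

theorem RT3 : RT3_stmt := by
  intro p hp F _ _ h5 s hs
  obtain ⟨h1, h2, h3⟩ := RT3_aux p h5
  have hss : s * s = ((3 : ℤ) : F) := by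
    push_cast; rw [← hs]; ring
  set f : ℤ√3 →+* F := Zsqrtd.lift ⟨s, hss⟩ with hf
  have hfs : f ⟨0, 1⟩ = s := by
    rw [hf]; simp [Zsqrtd.lift]
  have hpF : (p : F) = 0 := by
    have : (algebraMap (ZMod p) F) (p : ZMod p) = (p : F) := map_natCast _ p
    rw [← this, CharP.cast_eq_zero, map_zero]
  have hQ2 : algebraMap (ZMod p) F (Q2 p) = ((fq p 2 : ℤ) : F) := by
    unfold Q2; exact map_intCast _ _
  have hQ3 : algebraMap (ZMod p) F (Q3 p) = ((fq p 3 : ℤ) : F) := by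
    unfold Q3; exact map_intCast _ _
  have g1 := congrArg f h1
  have g2 := congrArg f h2
  have g3 := congrArg f h3
  simp only [map_add, map_mul, map_sub, map_pow, map_ph, map_natCast, map_intCast, hfs, hpF,
    map_ofNat, map_neg, map_one, map_zero] at g1 g2 g3
  constructor
  · simp only [map_sub, map_mul, map_ofNat, hQ2, hQ3]
    rw [g3] at g1
    linear_combination g1
  · simp only [map_sub, map_mul, map_ofNat, hQ2, hQ3]
    rw [g3] at g2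
    linear_combination g2

end Pool.Agent.helper60.DA
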